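import Pool.Agent.Run7.h615.WL.Cor

/-!
# MP_855f4c_ag: mw purity in any dimension, from the strata below their middle degree
-/

set_option autoImplicit false

open Module

universe u v

namespace Run7.h615.Kept.LowDegreesOfStrata

open Pool.Agent.Y143 Run7.h615.WL

/-- **The monodromy-weight conjecture in any dimension, from the cohomology of the strata below their
middle degree.** Let `X_K` be a smooth projective variety of dimension `n` over a finite extension `K`
of `ℚ_p` with a projective strictly semistable model over the ring of integers, with residue field
with `q` elements; `Y^(a+1)`, of dimension `n - a`, is the disjoint union of the intersections of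
`a + 1` different components of the special fibre. For `0 ≤ k ≤ 2 n` suppose that, for all `a ≥ 0` and
`w ≥ 2` with `a + 1 + w ≤ min(k, 2 n - k)` (so `w` is less than the dimension of `Y^(a+1)`, and this
dimension is at least `3`), every character `χ` (generalized eigenvalue of the Frobenius, or
simultaneously of the Frobenius and other commuting correspondences) is harmless in the sense of
`HarmlessAt`: one of the following is true.

* (`SimpleAt`) The primitive part for `χ` of the term `E_1^(a+1, w)` of the weight spectral sequence
  has dimension at most one, or it is contained in the coboundaries or meets them in zero.
* (`CoveredAt`) The primitive part for the dual character is contained in the coboundaries.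
* `w = 2` and the classes of character `χ` in `H^2(Y^(a+1))` are combinations of divisor classes.
* (`DivisibleAt`) `w ≥ 3` and the classes of character `χ` in `H^w(Y^(a+1))` are multiples of the
  ample class: they are in `L H^(w-2)(Y^(a+1))`.
* (`AlgebraicAt`) `w = 2 c + 2`, the classes of character `χ` in `H^w(Y^(a+1))` are algebraic, the
  classes in `H^(2c)(Y^(a+2))` are algebraic, and the classes of cycles of codimension `c + 1` on
  `Y^(a+2)` satisfy the Hodge standard conjecture (it is known for `c = 0`, for all classes which
  can be lifted to characteristic zero with the variety, for abelian fourfolds...).

In the last three cases one may disregard the classes with restriction zero to `Y^(a+2)`, and, more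
generally, a space `T` as in `GeneratedBy`. Then `H^k` of the geometric generic fibre is mw pure of
weight `k`.

There is no condition on the middle cohomology of the strata, and on the strata of dimension one and
two. For `n = 4` the conditions are on `H^2` and `H^3` of the components and `H^2` of the double
threefolds only. For example (`Run7.h615.WL.mw_of_strata`) the conjecture is true in all degrees if,
for all strata `Y^(a+1)` of dimension `d ≥ 3`, `H^2` is spanned by divisor classes and
`H^w = L H^(w-2)` for `3 ≤ w < d`, up to classes with restriction zero to `Y^(a+2)`; in particular if
the strata of dimension at least three are complete intersections in projective spaces or blow-ups of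
complete intersections along complete intersections of codimension two (as for the semistable
reduction of degenerations of a complete intersection into a union of two complete intersections). -/
theorem result {Ω : Type u} [Field Ω] [CharZero Ω] [IsAlgClosed Ω] {Γ : Type} {n q : ℕ}
    (X : Degeneration.{u, v} Ω Γ n q) (A : DivisorClasses X.toSpecialFibre)
    (C : CycleClasses X.toSpecialFibre) (k : ℕ)
    (h : ∀ (a w : ℕ) (χ : Γ → Ω), 2 ≤ w → a + 1 + w ≤ k → a + 1 + w + k ≤ 2 * n →
      HarmlessAt A C a w χ) :
    IsMWPure q k (X.actV k X.frob) (X.N k) :=
  mw_of_harmless X A C k h

end Run7.h615.Kept.LowDegreesOfStrata
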